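import Mathlib.Data.Real.Basic
import Mathlib.Algebra.BigOperators.Fin
import Mathlib.Algebra.BigOperators.Group.Finset.Pi
import Mathlib.Data.Fin.VecNotation
import Mathlib.Logic.Equiv.Defs
import Mathlib.Tactic

/-!
# MP_9e9eb1_al, Q1: a symmetric `B₀` tensor of odd order without H-eigenvalues

The symmetric tensor of order `3` and dimension `2` with `a₁₁₁ = 3`, `a₁₁₂ = 1`, `a₁₂₂ = -1`,
`a₂₂₂ = 10` is a `B₀` tensor. An eigenvector `(x, y)` has `y ≠ 0`, and `t = x / y` is a zero of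
`t⁴ - 2 t³ + 7 t² - 2 t + 1 > 0`.
-/

set_option autoImplicit false

namespace Pool.Agent.Results.MP_9e9eb1_al.NoHEigenvalue

/-- A real tensor of order `k + 1` and dimension `n`. -/
abbrev Tensor (k n : ℕ) : Type := (Fin (k + 1) → Fin n) → ℝ

/-- The tensor is symmetric. -/
def IsSymmetric {k n : ℕ} (A : Tensor k n) : Prop :=
  ∀ (σ : Equiv.Perm (Fin (k + 1))) (a : Fin (k + 1) → Fin n), A (a ∘ σ) = A a

/-- The sum of the entries of the `i`th row. -/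
def rowSum {k n : ℕ} (A : Tensor k n) (i : Fin n) : ℝ :=
  ∑ j : Fin k → Fin n, A (Fin.cons i j)

/-- `B₀` tensors: every row sum is nonnegative, and `rowSum / n ^ k` is at least every off-diagonal
entry of the row. -/
def IsB0 {k n : ℕ} (A : Tensor k n) : Prop :=
  ∀ i : Fin n, 0 ≤ rowSum A i ∧
    ∀ j : Fin k → Fin n, j ≠ (fun _ => i) → A (Fin.cons i j) ≤ rowSum A i / (n : ℝ) ^ k

/-- The `i`th coordinate of `A x^k`. -/
def applyVec {k n : ℕ} (A : Tensor k n) (x : Fin n → ℝ) (i : Fin n) : ℝ :=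
  ∑ j : Fin k → Fin n, A (Fin.cons i j) * ∏ l, x (j l)

/-- `lam` is an H-eigenvalue of the tensor `A` (of order `k + 1`): `A x^k = lam x^[k]` for some
nonzero real vector `x`. -/
def IsHEigenvalue {k n : ℕ} (A : Tensor k n) (lam : ℝ) : Prop :=
  ∃ x : Fin n → ℝ, x ≠ 0 ∧ ∀ i, applyVec A x i = lam * x i ^ k

/-- the number of indices equal to `1` -/
def cnt (a : Fin 3 → Fin 2) : ℕ := ∑ l, (a l : ℕ)

/-- the example -/
def ex : Tensor 2 2 := fun a => ![3, 1, -1, 10] (Fin.ofNat 4 (cnt a))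

theorem cnt_comp (σ : Equiv.Perm (Fin 3)) (a : Fin 3 → Fin 2) : cnt (a ∘ σ) = cnt a := by
  unfold cnt
  exact Equiv.sum_comp σ (fun l => (a l : ℕ))

theorem sum_fin (f : (Fin 2 → Fin 2) → ℝ) :
    ∑ j, f j = f ![0, 0] + f ![0, 1] + f ![1, 0] + f ![1, 1] := by
  rw [← (piFinTwoEquiv (fun _ => Fin 2)).symm.sum_comp, Fintype.sum_prod_type]
  simp only [Fin.sum_univ_two]
  have h : ∀ a b : Fin 2, (piFinTwoEquiv (fun _ => Fin 2)).symm (a, b) = ![a, b] := by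
    intro a b
    ext i
    fin_cases i <;> rfl
  rw [h, h, h, h]
  ring

theorem ex_val : ex (Fin.cons 0 ![0, 0]) = 3 ∧ ex (Fin.cons 0 ![0, 1]) = 1 ∧
    ex (Fin.cons 0 ![1, 0]) = 1 ∧ ex (Fin.cons 0 ![1, 1]) = -1 ∧
    ex (Fin.cons 1 ![0, 0]) = 1 ∧ ex (Fin.cons 1 ![0, 1]) = -1 ∧
    ex (Fin.cons 1 ![1, 0]) = -1 ∧ ex (Fin.cons 1 ![1, 1]) = 10 := by
  refine ⟨rfl, rfl, rfl, rfl, rfl, rfl, rfl, rfl⟩

theorem poly_pos (x y : ℝ) (h : ¬ (x = 0 ∧ y = 0)) :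
    0 < x ^ 4 - 2 * x ^ 3 * y + 7 * x ^ 2 * y ^ 2 - 2 * x * y ^ 3 + y ^ 4 := by
  have h1 : x ^ 4 - 2 * x ^ 3 * y + 7 * x ^ 2 * y ^ 2 - 2 * x * y ^ 3 + y ^ 4 =
      (x ^ 2 - x * y) ^ 2 + (y ^ 2 - x * y) ^ 2 + 5 * (x * y) ^ 2 := by ring
  rw [h1]
  by_contra hcon
  push Not at hcon
  have h2 := sq_nonneg (x ^ 2 - x * y)
  have h3 := sq_nonneg (y ^ 2 - x * y)
  have h4 := sq_nonneg (x * y)
  have e4 : (x * y) ^ 2 = 0 := by nlinarith
  have e2 : (x ^ 2 - x * y) ^ 2 = 0 := by nlinarith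
  have e3 : (y ^ 2 - x * y) ^ 2 = 0 := by nlinarith
  have f4 : x * y = 0 := by simpa using e4
  have f2 : x ^ 2 - x * y = 0 := by simpa using e2
  have f3 : y ^ 2 - x * y = 0 := by simpa using e3
  rw [f4, sub_zero] at f2 f3
  exact h ⟨by simpa using f2, by simpa using f3⟩

/-- **There is a symmetric `B₀` tensor of odd order (order `3`, dimension `2`) which has no
H-eigenvalue.** -/
theorem result : ∃ A : Tensor 2 2, IsSymmetric A ∧ IsB0 A ∧ ∀ lam : ℝ, ¬ IsHEigenvalue A lam := by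
  obtain ⟨v1, v2, v3, v4, v5, v6, v7, v8⟩ := ex_val
  have r0 : rowSum ex 0 = 4 := by
    rw [rowSum, sum_fin, v1, v2, v3, v4]; norm_num
  have r1 : rowSum ex 1 = 9 := by
    rw [rowSum, sum_fin, v5, v6, v7, v8]; norm_num
  refine ⟨ex, ?_, ?_, ?_⟩
  · intro σ a
    unfold ex
    rw [cnt_comp]
  · have key : ∀ j : Fin 2 → Fin 2, j = ![0, 0] ∨ j = ![0, 1] ∨ j = ![1, 0] ∨ j = ![1, 1] := by
      decide
    intro i
    fin_cases i
    · refine ⟨by rw [show ((⟨0, by norm_num⟩ : Fin 2)) = 0 from rfl, r0]; norm_num, ?_⟩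
      intro j hj
      show ex (Fin.cons 0 j) ≤ rowSum ex 0 / ((2 : ℕ) : ℝ) ^ 2
      rw [r0]
      rcases key j with rfl | rfl | rfl | rfl
      · exact absurd (by ext l; fin_cases l <;> rfl) hj
      · rw [v2]; norm_num
      · rw [v3]; norm_num
      · rw [v4]; norm_num
    · refine ⟨by rw [show ((⟨1, by norm_num⟩ : Fin 2)) = 1 from rfl, r1]; norm_num, ?_⟩
      intro j hj
      show ex (Fin.cons 1 j) ≤ rowSum ex 1 / ((2 : ℕ) : ℝ) ^ 2
      rw [r1]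
      rcases key j with rfl | rfl | rfl | rfl
      · rw [v5]; norm_num
      · rw [v6]; norm_num
      · rw [v7]; norm_num
      · exact absurd (by ext l; fin_cases l <;> rfl) hj
  · rintro lam ⟨x, hx, he⟩
    have h0 := he 0
    have h1 := he 1
    rw [applyVec, sum_fin, v1, v2, v3, v4] at h0
    rw [applyVec, sum_fin, v5, v6, v7, v8] at h1
    simp only [Fin.prod_univ_two, Matrix.cons_val_zero, Matrix.cons_val_one] at h0 h1
    have hne : ¬ (x 0 = 0 ∧ x 1 = 0) := by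
      rintro ⟨ha, hb⟩
      apply hx
      ext l
      fin_cases l
      · exact ha
      · exact hb
    have hp := poly_pos (x 0) (x 1) hne
    -- `(A x²)₁ y² = (A x²)₂ x²`
    have h2 : (3 * (x 0 * x 0) + 1 * (x 0 * x 1) + 1 * (x 1 * x 0) + -1 * (x 1 * x 1)) * x 1 ^ 2 =
        (1 * (x 0 * x 0) + -1 * (x 0 * x 1) + -1 * (x 1 * x 0) + 10 * (x 1 * x 1)) * x 0 ^ 2 := by
      rw [h0, h1]; ring
    nlinarith

end Pool.Agent.Results.MP_9e9eb1_al.NoHEigenvalue
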