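import Mathlib.Data.Real.Basic
import Mathlib.Algebra.BigOperators.Fin
import Mathlib.Algebra.BigOperators.Ring.Finset
import Mathlib.Algebra.Order.BigOperators.Group.Finset
import Mathlib.Data.Fintype.BigOperators
import Mathlib.Data.Finset.Max
import Mathlib.Logic.Equiv.Defs
import Mathlib.Tactic

/-!
# MP_9e9eb1_al, Q2: H-eigenvalues of odd order symmetric `B₀` tensors are nonnegative

Let `A` be a symmetric `B₀` tensor of order `k + 1` with `k` even. We show that
`(A x^k)_i ≥ 0` for every real vector `x` and every index `i` for which `|x_i|` is maximal, by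
induction on the size of the set `J` of rows with a positive off-diagonal entry: if `J` is not
empty, let `h` be the minimum over `J` of the largest off-diagonal entry of the row; since `A` is
symmetric, the entries with an index outside `J` are not positive, so `A - h E^J` is again a
symmetric `B₀` tensor, and `(E^J x^k)_i` is `0` or `(∑_{j ∈ J} x_j)^k ≥ 0`.
-/

set_option autoImplicit false

namespace Pool.Agent.Results.MP_9e9eb1_al.NonnegHEigenvalues

/-- A real tensor of order `k + 1` and dimension `n`. -/
abbrev Tensor (k n : ℕ) : Type := (Fin (k + 1) → Fin n) → ℝ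

/-- The tensor is symmetric. -/
def IsSymmetric {k n : ℕ} (A : Tensor k n) : Prop :=
  ∀ (σ : Equiv.Perm (Fin (k + 1))) (a : Fin (k + 1) → Fin n), A (a ∘ σ) = A a

/-- The sum of the entries of the `i`th row. -/
def rowSum {k n : ℕ} (A : Tensor k n) (i : Fin n) : ℝ :=
  ∑ j : Fin k → Fin n, A (Fin.cons i j)

/-- `B₀` tensors: every row sum is nonnegative, and `rowSum / n ^ k` is at least every off-diagonal
entry of the row. -/
def IsB0 {k n : ℕ} (A : Tensor k n) : Prop :=
  ∀ i : Fin n, 0 ≤ rowSum A i ∧
    ∀ j : Fin k → Fin n, j ≠ (fun _ => i) → A (Fin.cons i j) ≤ rowSum A i / (n : ℝ) ^ k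

/-- The `i`th coordinate of `A x^k`. -/
def applyVec {k n : ℕ} (A : Tensor k n) (x : Fin n → ℝ) (i : Fin n) : ℝ :=
  ∑ j : Fin k → Fin n, A (Fin.cons i j) * ∏ l, x (j l)

/-- `lam` is an H-eigenvalue of the tensor `A` (of order `k + 1`): `A x^k = lam x^[k]` for some
nonzero real vector `x`. -/
def IsHEigenvalue {k n : ℕ} (A : Tensor k n) (lam : ℝ) : Prop :=
  ∃ x : Fin n → ℝ, x ≠ 0 ∧ ∀ i, applyVec A x i = lam * x i ^ k

/-- the rows with a positive off-diagonal entry -/
noncomputable def posRows {k n : ℕ} (A : Tensor k n) : Finset (Fin n) := by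
  classical
  exact Finset.univ.filter (fun i => ∃ j : Fin k → Fin n, j ≠ (fun _ => i) ∧ 0 < A (Fin.cons i j))

theorem mem_posRows {k n : ℕ} (A : Tensor k n) (i : Fin n) :
    i ∈ posRows A ↔ ∃ j : Fin k → Fin n, j ≠ (fun _ => i) ∧ 0 < A (Fin.cons i j) := by
  classical
  simp [posRows]

/-- By symmetry all indices of a positive off-diagonal entry are in `posRows`. -/
theorem mem_posRows_of_pos {k n : ℕ} {A : Tensor k n} (hA : IsSymmetric A) (i : Fin n)
    (j : Fin k → Fin n) (hj : j ≠ (fun _ => i)) (hpos : 0 < A (Fin.cons i j)) (l : Fin k) :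
    j l ∈ posRows A := by
  rw [mem_posRows]
  let σ : Equiv.Perm (Fin (k + 1)) := Equiv.swap 0 l.succ
  let b : Fin (k + 1) → Fin n := (Fin.cons i j : Fin (k + 1) → Fin n) ∘ σ
  have hb0 : b 0 = j l := by
    show (Fin.cons i j : Fin (k + 1) → Fin n) (Equiv.swap 0 l.succ 0) = j l
    rw [Equiv.swap_apply_left, Fin.cons_succ]
  refine ⟨Fin.tail b, ?_, ?_⟩
  · intro hcon
    apply hj
    -- all entries of `b` are equal to `j l`
    have hall : ∀ s : Fin (k + 1), b s = j l := by
      intro s
      refine Fin.cases hb0 (fun t => ?_) s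
      exact congrFun hcon t
    have hall2 : ∀ s : Fin (k + 1), (Fin.cons i j : Fin (k + 1) → Fin n) s = j l := by
      intro s
      have h1 := hall (σ.symm s)
      have h2 : b (σ.symm s) = (Fin.cons i j : Fin (k + 1) → Fin n) s := by
        show (Fin.cons i j : Fin (k + 1) → Fin n) (σ (σ.symm s)) = _
        rw [Equiv.apply_symm_apply]
      rw [← h2, h1]
    have hi : i = j l := by
      have := hall2 0
      rwa [Fin.cons_zero] at this
    ext t
    have := hall2 t.succ
    rw [Fin.cons_succ] at this
    rw [this, ← hi]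
  · have h1 : (Fin.cons (j l) (Fin.tail b) : Fin (k + 1) → Fin n) = b := by
      rw [← hb0]
      exact Fin.cons_self_tail b
    rw [h1]
    show 0 < A ((Fin.cons i j : Fin (k + 1) → Fin n) ∘ σ)
    rw [hA]
    exact hpos

/-- the partially all one tensor `E^J` -/
noncomputable def oneT (k n : ℕ) (J : Finset (Fin n)) : Tensor k n := by
  classical
  exact fun a => ∏ l, if a l ∈ J then 1 else 0

theorem oneT_cons {k n : ℕ} (J : Finset (Fin n)) [DecidablePred (· ∈ J)] (i : Fin n)
    (j : Fin k → Fin n) :
    oneT k n J (Fin.cons i j) = (if i ∈ J then 1 else 0) * ∏ l, (if j l ∈ J then (1 : ℝ) else 0) := by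
  classical
  rw [oneT, Fin.prod_univ_succ]
  simp only [Fin.cons_zero, Fin.cons_succ]

theorem oneT_symm {k n : ℕ} (J : Finset (Fin n)) : IsSymmetric (oneT k n J) := by
  classical
  intro σ a
  unfold oneT
  exact Equiv.prod_comp σ (fun l => if a l ∈ J then (1 : ℝ) else 0)

theorem oneT_nonneg {k n : ℕ} (J : Finset (Fin n)) (a) : 0 ≤ oneT k n J a := by
  classical
  unfold oneT
  apply Finset.prod_nonneg
  intro l _
  split_ifs <;> norm_num

theorem oneT_le_one {k n : ℕ} (J : Finset (Fin n)) (a) : oneT k n J a ≤ 1 := by
  classical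
  unfold oneT
  apply Finset.prod_le_one
  · intro l _
    split_ifs <;> norm_num
  · intro l _
    split_ifs <;> norm_num

theorem applyVec_oneT {k n : ℕ} (J : Finset (Fin n)) [DecidablePred (· ∈ J)] (x : Fin n → ℝ)
    (i : Fin n) :
    applyVec (oneT k n J) x i =
      (if i ∈ J then 1 else 0) * (∑ s, (if s ∈ J then (1 : ℝ) else 0) * x s) ^ k := by
  classical
  rw [applyVec, Fintype.sum_pow, Finset.mul_sum]
  apply Finset.sum_congr rfl
  intro j _
  rw [oneT_cons, Finset.prod_mul_distrib, mul_assoc]

theorem rowSum_oneT_le {k n : ℕ} (J : Finset (Fin n)) (i : Fin n) :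
    rowSum (oneT k n J) i ≤ (n : ℝ) ^ k := by
  rw [rowSum]
  calc ∑ j : Fin k → Fin n, oneT k n J (Fin.cons i j) ≤ ∑ _j : Fin k → Fin n, (1 : ℝ) :=
        Finset.sum_le_sum (fun j _ => oneT_le_one J _)
    _ = (n : ℝ) ^ k := by simp

/-- The key statement: `(A x^k)_i ≥ 0` where `|x_i|` is maximal. -/
theorem applyVec_nonneg {k n : ℕ} (hk : Even k) :
    ∀ (N : ℕ) (A : Tensor k n), (posRows A).card = N → IsSymmetric A → IsB0 A →
      ∀ (x : Fin n → ℝ) (i : Fin n), (∀ s, |x s| ≤ |x i|) → 0 ≤ applyVec A x i := by
  classical
  intro N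
  induction N using Nat.strong_induction_on with
  | _ N ih =>
    intro A hN hS hB x i hi
    by_cases hJ : (posRows A) = ∅
    · -- all off-diagonal entries are nonpositive
      have hoff : ∀ j : Fin k → Fin n, j ≠ (fun _ => i) → A (Fin.cons i j) ≤ 0 := by
        intro j hj
        by_contra hcon
        push Not at hcon
        have h1 : i ∈ posRows A := (mem_posRows A i).2 ⟨j, hj, hcon⟩
        rw [hJ] at h1
        exact absurd h1 (Finset.notMem_empty i)
      have hprod : ∀ j : Fin k → Fin n, |∏ l, x (j l)| ≤ |x i| ^ k := by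
        intro j
        rw [Finset.abs_prod]
        calc ∏ l, |x (j l)| ≤ ∏ _l : Fin k, |x i| :=
              Finset.prod_le_prod (fun l _ => abs_nonneg _) (fun l _ => hi _)
          _ = |x i| ^ k := by simp
      have hterm : ∀ j : Fin k → Fin n,
          A (Fin.cons i j) * |x i| ^ k ≤ A (Fin.cons i j) * ∏ l, x (j l) := by
        intro j
        by_cases hj : j = (fun _ => i)
        · subst hj
          simp only [Finset.prod_const, Finset.card_univ, Fintype.card_fin]
          rw [hk.pow_abs]
        · have h1 := hoff j hj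
          have h2 : ∏ l, x (j l) ≤ |x i| ^ k := (le_abs_self _).trans (hprod j)
          exact mul_le_mul_of_nonpos_left h2 h1
      have h3 : rowSum A i * |x i| ^ k ≤ applyVec A x i := by
        rw [rowSum, applyVec, Finset.sum_mul]
        exact Finset.sum_le_sum (fun j _ => hterm j)
      exact (mul_nonneg (hB i).1 (pow_nonneg (abs_nonneg _) k)).trans h3
    · -- the largest off-diagonal entry of a row in `posRows A`
      have hJ' : (posRows A).Nonempty := Finset.nonempty_iff_ne_empty.2 hJ
      let off : Fin n → Finset (Fin k → Fin n) := fun s => Finset.univ.filter (fun j => j ≠ fun _ => s)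
      have hmax : ∀ s ∈ posRows A, ∃ d : ℝ, 0 < d ∧
          (∀ j : Fin k → Fin n, j ≠ (fun _ => s) → A (Fin.cons s j) ≤ d) ∧
          ∃ j : Fin k → Fin n, j ≠ (fun _ => s) ∧ A (Fin.cons s j) = d := by
        intro s hs
        obtain ⟨j0, hj0, hpos⟩ := (mem_posRows A s).1 hs
        have hne : (off s).Nonempty := ⟨j0, by simp [off, hj0]⟩
        obtain ⟨j1, hj1, hmx⟩ := Finset.exists_max_image (off s) (fun j => A (Fin.cons s j)) hne
        have hj1' : j1 ≠ fun _ => s := by simpa [off] using hj1
        refine ⟨A (Fin.cons s j1), ?_, ?_, j1, hj1', rfl⟩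
        · exact hpos.trans_le (hmx j0 (by simp [off, hj0]))
        · intro j hj
          exact hmx j (by simp [off, hj])
      choose! d hd0 hdle hdeq using hmax
      obtain ⟨s0, hs0, hmin⟩ := Finset.exists_min_image (posRows A) d hJ'
      set h : ℝ := d s0 with hh
      have hpos : 0 < h := hd0 s0 hs0
      let A' : Tensor k n := fun a => A a - h * oneT k n (posRows A) a
      have hA' : ∀ a, A' a = A a - h * oneT k n (posRows A) a := fun a => rfl
      have hS' : IsSymmetric A' := by
        intro σ a
        rw [hA', hA', hS, oneT_symm]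
      have hrow : ∀ s, rowSum A' s = rowSum A s - h * rowSum (oneT k n (posRows A)) s := by
        intro s
        rw [rowSum, rowSum, rowSum, Finset.mul_sum, ← Finset.sum_sub_distrib]
      -- off-diagonal entries after subtraction
      have hn : ∀ s : Fin n, 0 < (n : ℝ) ^ k := fun s => pow_pos (by exact_mod_cast Fin.pos s) k
      have hoff' : ∀ s (j : Fin k → Fin n), j ≠ (fun _ => s) → s ∈ posRows A →
          A' (Fin.cons s j) ≤ d s - h := by
        intro s j hj hs
        rw [hA']
        by_cases hall : ∀ l, j l ∈ posRows A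
        · have h1 : oneT k n (posRows A) (Fin.cons s j) = 1 := by
            rw [oneT_cons]
            simp [hs, hall]
          rw [h1, mul_one]
          have := hdle s hs j hj
          linarith
        · push Not at hall
          obtain ⟨l, hl⟩ := hall
          have h1 : A (Fin.cons s j) ≤ 0 := by
            by_contra hcon
            push Not at hcon
            exact hl (mem_posRows_of_pos hS s j hj hcon l)
          have h2 := oneT_nonneg (k := k) (posRows A) (Fin.cons s j)
          have h3 : h ≤ d s := hmin s hs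
          have h4 : 0 ≤ h * oneT k n (posRows A) (Fin.cons s j) := mul_nonneg hpos.le h2
          linarith
      have hoff'' : ∀ s (j : Fin k → Fin n), j ≠ (fun _ => s) → s ∉ posRows A →
          A' (Fin.cons s j) ≤ 0 := by
        intro s j hj hs
        rw [hA']
        have h1 : A (Fin.cons s j) ≤ 0 := by
          by_contra hcon
          push Not at hcon
          exact hs ((mem_posRows A s).2 ⟨j, hj, hcon⟩)
        have h4 : 0 ≤ h * oneT k n (posRows A) (Fin.cons s j) :=
          mul_nonneg hpos.le (oneT_nonneg _ _)
        linarith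
      have hB' : IsB0 A' := by
        intro s
        by_cases hs : s ∈ posRows A
        · have h1 : d s - h ≤ rowSum A' s / (n : ℝ) ^ k := by
            obtain ⟨j1, hj1, hj1e⟩ := hdeq s hs
            have h2 := (hB s).2 j1 hj1
            rw [hj1e] at h2
            rw [hrow, le_div_iff₀ (hn s)]
            rw [le_div_iff₀ (hn s)] at h2
            have h3 := rowSum_oneT_le (k := k) (posRows A) s
            nlinarith [mul_le_mul_of_nonneg_left h3 hpos.le]
          have h2 : h ≤ d s := hmin s hs
          refine ⟨?_, ?_⟩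
          · have h3 : 0 ≤ rowSum A' s / (n : ℝ) ^ k := by linarith
            have h4 := mul_nonneg h3 (hn s).le
            rwa [div_mul_cancel₀ _ (hn s).ne'] at h4
          · intro j hj
            exact (hoff' s j hj hs).trans h1
        · have h1 : rowSum (oneT k n (posRows A)) s = 0 := by
            rw [rowSum]
            apply Finset.sum_eq_zero
            intro j _
            rw [oneT_cons]
            simp [hs]
          have h2 : rowSum A' s = rowSum A s := by
            rw [hrow, h1, mul_zero, sub_zero]
          refine ⟨by rw [h2]; exact (hB s).1, ?_⟩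
          intro j hj
          rw [h2]
          exact (hoff'' s j hj hs).trans (div_nonneg (hB s).1 (hn s).le)
      have hcard : (posRows A').card < N := by
        rw [← hN]
        apply Finset.card_lt_card
        rw [Finset.ssubset_iff_of_subset]
        · refine ⟨s0, hs0, ?_⟩
          intro hcon
          obtain ⟨j, hj, hjpos⟩ := (mem_posRows A' s0).1 hcon
          have h1 := hoff' s0 j hj hs0
          rw [← hh, sub_self] at h1
          exact absurd hjpos (not_lt.2 h1)
        · intro s hs
          by_contra hcon
          obtain ⟨j, hj, hjpos⟩ := (mem_posRows A' s).1 hs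
          exact absurd hjpos (not_lt.2 (hoff'' s j hj hcon))
      have h1 := ih _ hcard A' rfl hS' hB' x i hi
      have h2 : applyVec A x i = applyVec A' x i + h * applyVec (oneT k n (posRows A)) x i := by
        rw [applyVec, applyVec, applyVec, Finset.mul_sum, ← Finset.sum_add_distrib]
        apply Finset.sum_congr rfl
        intro j _
        rw [hA']
        ring
      have h3 : 0 ≤ applyVec (oneT k n (posRows A)) x i := by
        rw [applyVec_oneT]
        apply mul_nonneg
        · split_ifs <;> norm_num
        · exact hk.pow_nonneg _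
      rw [h2]
      exact add_nonneg h1 (mul_nonneg hpos.le h3)

/-- **Every H-eigenvalue of a symmetric `B₀` tensor of odd order `k + 1` is nonnegative.** -/
theorem result (k n : ℕ) (hk : Even k) (A : Tensor k n) (hA : IsSymmetric A) (hB : IsB0 A)
    (lam : ℝ) (h : IsHEigenvalue A lam) : 0 ≤ lam := by
  obtain ⟨x, hx, he⟩ := h
  have hne : ∃ s, x s ≠ 0 := by
    by_contra hcon
    push Not at hcon
    exact hx (funext hcon)
  obtain ⟨s, hs⟩ := hne
  have : Nonempty (Fin n) := ⟨s⟩
  obtain ⟨i, -, hi⟩ := Finset.exists_max_image Finset.univ (fun s => |x s|) Finset.univ_nonempty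
  have h1 := applyVec_nonneg hk _ A rfl hA hB x i (fun s => hi s (Finset.mem_univ s))
  rw [he i] at h1
  have h2 : 0 < |x i| := (abs_pos.2 hs).trans_le (hi s (Finset.mem_univ s))
  have h3 : 0 < x i ^ k := by
    rw [← hk.pow_abs]
    exact pow_pos h2 k
  by_contra hcon
  push Not at hcon
  exact absurd h1 (not_le.2 (mul_neg_of_neg_of_pos hcon h3))

end Pool.Agent.Results.MP_9e9eb1_al.NonnegHEigenvalues
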